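import Pool.Agent.H65.MC.Two

open Pool.Agent.H3.MatConv

namespace Pool.Agent.Results.MP_c7d282_an.ConjClosedCounterexample

/-- There is a closed bounded matrix convex set `K` of self-adjoint `5`-tuples, closed under
entrywise complex conjugation, which is the matrix convex hull of its free extreme points, and whose
projection onto the first four coordinates is nonempty, has no free extreme points at all, and hence
is not the matrix convex hull of its free extreme points. -/
theorem result :
    ∃ K : GSet (4 + 1), IsSelfAdjointSet K ∧ IsClosedBounded K ∧ IsMatrixConvex K ∧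
      IsConjClosed K ∧ K = mconv (freeExt K) ∧
      (proj 4 1 K 1).Nonempty ∧ (∀ n : ℕ, freeExt (proj 4 1 K) n = ∅) ∧
      proj 4 1 K ≠ mconv (freeExt (proj 4 1 K)) := by
  have hproj : proj 4 1 (Lift twoBall) = twoBall :=
    funext fun n => proj_Lift twoBall_selfAdjoint twoBall_matrixConvex n
  refine ⟨Lift twoBall, Lift_selfAdjoint twoBall_selfAdjoint,
    Lift_closedBounded twoBall_selfAdjoint twoBall_matrixConvex twoBall_closedBounded,
    Lift_matrixConvex twoBall, Lift_conjClosed twoBall_conjClosed,
    funext fun n => Lift_eq_mconv_freeExt twoBall_selfAdjoint twoBall_matrixConvex n,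
    ?_, ?_, ?_⟩
  · rw [hproj]
    exact ⟨0, zero_mem_twoBall⟩
  · intro n
    rw [hproj]
    exact freeExt_twoBall n
  · rw [hproj]
    intro h
    have h0 : (0 : Tup 4 1) ∈ mconv (freeExt twoBall) 1 := by
      rw [← h]
      exact zero_mem_twoBall
    obtain ⟨_, ι, hι, m, Y, V, hY, hc1, _⟩ := h0
    have hne : Nonempty ι := by
      by_contra h
      rw [not_nonempty_iff] at h
      rw [Finset.univ_eq_empty, Finset.sum_empty] at hc1
      have := congrFun (congrFun hc1 0) 0
      simp at this
    obtain ⟨i⟩ := hne
    have := hY i
    rw [freeExt_twoBall] at this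
    exact this

end Pool.Agent.Results.MP_c7d282_an.ConjClosedCounterexample
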