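import Pool.Agent.H3.MatConvClosed

open Pool.Agent.H3.MatConv

namespace Pool.Agent.Results.MP_c7d282_an.UniversalLifting

/-- Every closed bounded matrix convex set of self-adjoint `g`-tuples is the projection of a closed
bounded matrix convex set of self-adjoint `(g + 1)`-tuples which is the matrix convex hull of its
free extreme points. -/
theorem result (g : ℕ) (L : GSet g) (hsa : IsSelfAdjointSet L) (hcb : IsClosedBounded L)
    (hmc : IsMatrixConvex L) :
    ∃ K : GSet (g + 1), IsSelfAdjointSet K ∧ IsClosedBounded K ∧ IsMatrixConvex K ∧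
      K = mconv (freeExt K) ∧ proj g 1 K = L :=
  ⟨Lift L, Lift_selfAdjoint hsa, Lift_closedBounded hsa hmc hcb, Lift_matrixConvex L,
    funext fun n => Lift_eq_mconv_freeExt hsa hmc n, funext fun n => proj_Lift hsa hmc n⟩

end Pool.Agent.Results.MP_c7d282_an.UniversalLifting
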